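import Pool.Agent.Q108.QS3.Main

set_option autoImplicit false

/-! # MP_096921_co: quasi-symmetric 3-designs with smaller intersection number 1

Every quasi-symmetric `3-(v,k,lam)` design with smaller intersection number `x = 1` (no repeated
blocks, `3 ≤ k < v`) is a Steiner system `S(4,7,23)`, or the residual of a Steiner system
`S(4,7,23)` at a point, or the complete design of all triples of a 5-element set (which the
printed definitions do not exclude). -/

namespace Pool.Agent.Results.MP_096921_co.Classification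

open Finset

/-- `B` is (the block set of) a `t-(v,k,lam)` design without repeated blocks on the finite point
set `P`, `v = |P|`: every block has exactly `k` points and every `t`-element set of points lies in
exactly `lam` blocks. -/
def IsDesign {P : Type*} [DecidableEq P] (B : Finset (Finset P)) (t k lam : ℕ) : Prop :=
  (∀ b ∈ B, b.card = k) ∧
    ∀ T : Finset P, T.card = t → (B.filter (fun b => T ⊆ b)).card = lam

/-- The set of block intersection numbers: the sizes of the intersections of two distinct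
blocks. -/
def intersectionNumbers {P : Type*} [DecidableEq P] (B : Finset (Finset P)) : Set ℕ :=
  {n | ∃ b₁ ∈ B, ∃ b₂ ∈ B, b₁ ≠ b₂ ∧ (b₁ ∩ b₂).card = n}

/-- `B` is (the block set of) a Steiner system `S(4,7,23)` on `P`. -/
def IsS4723 {P : Type*} [Fintype P] [DecidableEq P] (B : Finset (Finset P)) : Prop :=
  Fintype.card P = 23 ∧ IsDesign B 4 7 1

/-- `B` is the residual of the family `W` of subsets of `Q` at the point `q`: for some bijection
`e` from the points of `B` to the points `≠ q`, the blocks of `B` correspond to the members of `W`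
that miss `q`. -/
def IsResidual {P Q : Type*} [DecidableEq P] [DecidableEq Q] (B : Finset (Finset P))
    (W : Finset (Finset Q)) (q : Q) : Prop :=
  ∃ e : P ≃ {p : Q // p ≠ q}, ∀ w : Finset Q, (w ∈ W ∧ q ∉ w) ↔
    ∃ b ∈ B, w = b.image (fun p => (e p : Q))

/-- **Classification.** Let `B` be a quasi-symmetric `3-(v,k,lam)` design with `3 ≤ k < v`,
without repeated blocks and with intersection numbers `1 < y`. Then `B` is a Steiner system
`S(4,7,23)`, or `B` is the residual of a Steiner system `S(4,7,23)` at one of its points, or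
`v = 5` and `B` consists of all triples. -/
theorem result {P : Type*} [Fintype P] [DecidableEq P] (B : Finset (Finset P)) (k lam y : ℕ)
    (hk : 3 ≤ k) (hkv : k < Fintype.card P) (hD : IsDesign B 3 k lam) (hy : 1 < y)
    (hI : intersectionNumbers B = {1, y}) :
    IsS4723 B ∨
      (∃ W : Finset (Finset (Option P)), IsS4723 W ∧ IsResidual B W none) ∨
      (Fintype.card P = 5 ∧ B = (univ : Finset P).powersetCard 3) := by
  have hint : ∀ b₁ ∈ B, ∀ b₂ ∈ B, b₁ ≠ b₂ → (b₁ ∩ b₂).card = 1 ∨ (b₁ ∩ b₂).card = y := by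
    intro b₁ h₁ b₂ h₂ hne
    have : (b₁ ∩ b₂).card ∈ intersectionNumbers B := ⟨b₁, h₁, b₂, h₂, hne, rfl⟩
    rw [hI] at this
    simpa using this
  have hx1 : ∃ b₁ ∈ B, ∃ b₂ ∈ B, b₁ ≠ b₂ ∧ (b₁ ∩ b₂).card = 1 := by
    have : 1 ∈ intersectionNumbers B := by rw [hI]; simp
    exact this
  have hy1 : ∃ b₁ ∈ B, ∃ b₂ ∈ B, b₁ ≠ b₂ ∧ (b₁ ∩ b₂).card = y := by
    have : y ∈ intersectionNumbers B := by rw [hI]; simp
    exact this
  obtain ⟨hB, h3⟩ := hD
  rcases Pool.Agent.TH413.QS.params B k lam y hk hkv hB h3 hy hint hx1 hy1 with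
    ⟨rfl, rfl, ⟨rfl, hP⟩ | ⟨rfl, hP⟩⟩ | ⟨rfl, rfl, rfl, hP⟩
  · right; left
    refine ⟨Pool.Agent.Q108.QS3.ext B, ⟨?_, Pool.Agent.Q108.QS3.ext_card B hB h3 hP hint,
      Pool.Agent.Q108.QS3.ext_deg B hB h3 hP hint⟩, ?_⟩
    · rw [Fintype.card_option, hP]
    · refine ⟨⟨fun p => ⟨some p, by simp⟩, fun o => o.1.get (Option.isSome_iff_ne_none.2 o.2),
        fun p => by simp, fun o => by ext; simp⟩, ?_⟩
      intro w
      constructor
      · rintro ⟨hw, hn⟩
        obtain ⟨b, hb, hbw⟩ := (Pool.Agent.Q108.QS3.mem_ext_none B w hn).1 hw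
        refine ⟨b, hb, ?_⟩
        rw [← hbw, map_eq_image]
        rfl
      · rintro ⟨b, hb, rfl⟩
        have hn : (none : Option P) ∉ b.image (fun p => some p) := by simp
        refine ⟨(Pool.Agent.Q108.QS3.mem_ext_none B _ hn).2 ⟨b, hb, ?_⟩, hn⟩
        rw [map_eq_image]
        rfl
  · left
    exact ⟨hP, hB, Pool.Agent.Q108.QS3.case23 B hB h3 hP hint⟩
  · right; right
    exact ⟨hP, Pool.Agent.Q108.QS3.case5 B hB h3⟩

end Pool.Agent.Results.MP_096921_co.Classification
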