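import Pool.Agent.TH413.QS.Params

set_option autoImplicit false

/-! Quasi-symmetric 3-designs with smaller intersection number 1: from the parameters to the
Steiner system `S(4,7,23)` and its residual. -/

namespace Pool.Agent.Q108.QS3

open Finset Pool.Agent.TH413.QS

variable {P : Type*} [Fintype P] [DecidableEq P]

set_option linter.unusedSectionVars false

lemma inter_lt (B : Finset (Finset P)) (k : ℕ) (hB : ∀ b ∈ B, b.card = k)
    {b c : Finset P} (hb : b ∈ B) (hc : c ∈ B) (hne : b ≠ c) : (b ∩ c).card < k := by
  have h1 : (b ∩ c).card ≤ b.card := card_le_card inter_subset_left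
  rw [hB b hb] at h1
  rcases Nat.lt_or_ge (b ∩ c).card k with h | h
  · exact h
  · exfalso
    apply hne
    have h2 : b ∩ c = b := eq_of_subset_of_card_le inter_subset_left (by rw [hB b hb]; omega)
    have h3 : b ⊆ c := by rw [← h2]; exact inter_subset_right
    exact eq_of_subset_of_card_le h3 (by rw [hB b hb, hB c hc])

/-- Case `v = 23`. -/
lemma case23 (B : Finset (Finset P)) (hB : ∀ b ∈ B, b.card = 7)
    (h3 : ∀ T : Finset P, T.card = 3 → deg B T = 5) (hP : Fintype.card P = 23)
    (hint : ∀ b ∈ B, ∀ c ∈ B, b ≠ c → (b ∩ c).card = 1 ∨ (b ∩ c).card = 3) :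
    ∀ T : Finset P, T.card = 4 → deg B T = 1 := by
  obtain ⟨l2, r, -, -, e2, e1, e0⟩ := basic B 7 5 (by norm_num) (by omega) hB h3
  rw [hP] at e2 e1 e0
  have hb : B.card = 253 := by omega
  have hle : ∀ T ∈ (univ : Finset P).powersetCard 4, deg B T ≤ 1 := by
    intro T hT
    rw [mem_powersetCard] at hT
    unfold deg
    rw [card_le_one]
    intro b hb c hc
    rw [mem_filter] at hb hc
    by_contra hne
    have h := hint b hb.1 c hc.1 hne
    have h4 : T.card ≤ (b ∩ c).card := card_le_card (subset_inter hb.2 hc.2)
    rw [hT.2] at h4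
    omega
  have hsum : ∑ T ∈ (univ : Finset P).powersetCard 4, deg B T
      = ∑ T ∈ (univ : Finset P).powersetCard 4, 1 := by
    rw [sum_deg, sum_const, card_powersetCard, card_univ, hP]
    have : ∀ b ∈ B, ((univ : Finset P) ∩ b).card.choose 4 = 35 := by
      intro b hb
      rw [univ_inter, hB b hb]
      rfl
    rw [sum_congr rfl this, sum_const, hb]
    rfl
  have h := (Finset.sum_eq_sum_iff_of_le hle).1 hsum
  intro T hT
  exact h T (mem_powersetCard.2 ⟨subset_univ _, hT⟩)

/-- points of the blocks through `S`, outside `S` -/
def US (B : Finset (Finset P)) (S : Finset P) : Finset P :=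
  (B.filter (fun b => S ⊆ b)).biUnion (fun b => b \ S)

/-- the complement -/
def HS (B : Finset (Finset P)) (S : Finset P) : Finset P := univ \ US B S

lemma sub_HS (B : Finset (Finset P)) (S : Finset P) : S ⊆ HS B S := by
  intro p hp
  unfold HS US
  simp only [mem_sdiff, mem_univ, true_and, mem_biUnion, not_exists, not_and]
  intro b _ _ h
  exact h hp

section
variable (B : Finset (Finset P)) (hB : ∀ b ∈ B, b.card = 7)
    (h3 : ∀ T : Finset P, T.card = 3 → deg B T = 4) (hP : Fintype.card P = 22)
    (hint : ∀ b ∈ B, ∀ c ∈ B, b ≠ c → (b ∩ c).card = 1 ∨ (b ∩ c).card = 3)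

include hint in
lemma pwd {S : Finset P} (hS : S.card = 3) :
    Set.PairwiseDisjoint (↑(B.filter (fun b => S ⊆ b))) (fun b : Finset P => b \ S) := by
  intro b hb c hc hne
  rw [mem_coe, mem_filter] at hb hc
  have h := hint b hb.1 c hc.1 hne
  have h1 : S ⊆ b ∩ c := subset_inter hb.2 hc.2
  have h2 : (b ∩ c).card = 3 := by
    rcases h with h | h
    · have := card_le_card h1
      omega
    · exact h
  have h4 : S = b ∩ c := eq_of_subset_of_card_le h1 (by omega)
  rw [Function.onFun, Finset.disjoint_left]
  intro p hp hq
  rw [mem_sdiff] at hp hq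
  exact hp.2 (h4 ▸ mem_inter.2 ⟨hp.1, hq.1⟩)

include hB h3 hint in
lemma card_US {S : Finset P} (hS : S.card = 3) : (US B S).card = 16 := by
  unfold US
  rw [card_biUnion (pwd B hint hS)]
  have : ∀ b ∈ B.filter (fun b => S ⊆ b), (b \ S).card = 4 := by
    intro b hb
    rw [mem_filter] at hb
    rw [card_sdiff_of_subset hb.2, hB b hb.1, hS]
  rw [sum_congr rfl this, sum_const]
  have := h3 S hS
  unfold deg at this
  rw [this]
  rfl

include hB h3 hP hint in
lemma card_HS {S : Finset P} (hS : S.card = 3) : (HS B S).card = 6 := by
  unfold HS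
  rw [card_sdiff_of_subset (subset_univ _), card_univ, hP, card_US B hB h3 hint hS]

include hB h3 hint in
lemma odd_HS {S : Finset P} (hS : S.card = 3) {b : Finset P} (hb : b ∈ B) :
    Odd (HS B S ∩ b).card := by
  classical
  have h1 : (HS B S ∩ b).card + (US B S ∩ b).card = 7 := by
    rw [← hB b hb, ← card_union_of_disjoint]
    · congr 1
      ext p
      unfold HS
      simp only [mem_union, mem_inter, mem_sdiff, mem_univ, true_and]
      tauto
    · rw [Finset.disjoint_left]
      intro p hp hq
      unfold HS at hp
      simp only [mem_inter, mem_sdiff, mem_univ, true_and] at hp hq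
      exact hp.1 hq.1
  have h2 : Even (US B S ∩ b).card := by
    have e1 : US B S ∩ b = (B.filter (fun c => S ⊆ c)).biUnion (fun c => (c \ S) ∩ b) := by
      unfold US
      rw [biUnion_inter]
    rw [e1, card_biUnion]
    · have e2 : ∀ c ∈ B.filter (fun c => S ⊆ c), ((c \ S) ∩ b).card + (S ∩ b).card
          = (c ∩ b).card := by
        intro c hc
        rw [mem_filter] at hc
        rw [← card_union_of_disjoint]
        · congr 1
          ext p
          simp only [mem_union, mem_inter, mem_sdiff]
          constructor
          · rintro (h | h)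
            · exact ⟨h.1.1, h.2⟩
            · exact ⟨hc.2 h.1, h.2⟩
          · intro h
            by_cases hp : p ∈ S
            · exact Or.inr ⟨hp, h.2⟩
            · exact Or.inl ⟨⟨h.1, hp⟩, h.2⟩
        · rw [Finset.disjoint_left]
          intro p hp hq
          simp only [mem_inter, mem_sdiff] at hp hq
          exact hp.1.2 hq.1
      have e3 : ∑ c ∈ B.filter (fun c => S ⊆ c), ((c \ S) ∩ b).card + 4 * (S ∩ b).card
          = ∑ c ∈ B.filter (fun c => S ⊆ c), (c ∩ b).card := by
        rw [← sum_congr rfl e2, sum_add_distrib, sum_const]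
        have := h3 S hS
        unfold deg at this
        rw [this, smul_eq_mul]
      have e4 : Even (∑ c ∈ B.filter (fun c => S ⊆ c), (c ∩ b).card) := by
        rw [Finset.even_sum_iff_even_card_odd]
        have : (B.filter (fun c => S ⊆ c)).filter (fun c => Odd (c ∩ b).card)
            = B.filter (fun c => S ⊆ c) := by
          rw [Finset.filter_true_of_mem]
          intro c hc
          rw [mem_filter] at hc
          by_cases hcb : c = b
          · rw [hcb, inter_self, hB b hb]
            decide
          · rcases hint c hc.1 b hb hcb with h | h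
            · rw [h]; decide
            · rw [h]; decide
        rw [this]
        have := h3 S hS
        unfold deg at this
        rw [this]
        decide
      rw [← e3] at e4
      have e5 : Even (4 * (S ∩ b).card) := by
        rw [Nat.even_mul]; left; decide
      exact (Nat.even_add.1 e4).2 e5
    · intro c hc d hd hne
      have := pwd B hint hS hc hd hne
      rw [Function.onFun] at this
      exact Finset.disjoint_of_subset_left inter_subset_left
        (Finset.disjoint_of_subset_right inter_subset_left this)
  rw [Nat.odd_iff]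
  rw [Nat.even_iff] at h2
  omega

include hB h3 hP hint in
/-- No block has four points in a hexad. -/
lemma HS_le {S : Finset P} (hS : S.card = 3) {b : Finset P} (hb : b ∈ B) :
    (HS B S ∩ b).card ≤ 3 := by
  obtain ⟨l2, r, hl2, -, e2, -, -⟩ := basic B 7 4 (by norm_num) (by omega) hB h3
  rw [hP] at e2
  have hl : l2 = 16 := by omega
  have hH := card_HS B hB h3 hP hint hS
  have s2 := sum_deg B (HS B S) 2
  have s3 := sum_deg B (HS B S) 3
  have t2 : ∑ T ∈ (HS B S).powersetCard 2, deg B T = 240 := by
    rw [Finset.sum_congr rfl (g := fun _ => l2) (fun T hT => hl2 T (mem_powersetCard.1 hT).2),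
      Finset.sum_const, card_powersetCard, hH, smul_eq_mul, hl]
    rfl
  have t3 : ∑ T ∈ (HS B S).powersetCard 3, deg B T = 80 := by
    rw [Finset.sum_congr rfl (g := fun _ => 4) (fun T hT => h3 T (mem_powersetCard.1 hT).2),
      Finset.sum_const, card_powersetCard, hH, smul_eq_mul]
    rfl
  rw [t2] at s2
  rw [t3] at s3
  have hbd : ∀ c ∈ B, (HS B S ∩ c).card ≤ 6 := by
    intro c _
    rw [← hH]
    exact card_le_card inter_subset_left
  have hle : ∀ c ∈ B, (HS B S ∩ c).card.choose 2 ≤ 3 * (HS B S ∩ c).card.choose 3 := by
    intro c hc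
    have h1 := odd_HS B hB h3 hint hS hc
    have h2 := hbd c hc
    generalize (HS B S ∩ c).card = i at h1 h2
    interval_cases i <;> first | decide | (exfalso; revert h1; decide)
  have heq : ∑ c ∈ B, (HS B S ∩ c).card.choose 2 = ∑ c ∈ B, 3 * (HS B S ∩ c).card.choose 3 := by
    rw [← mul_sum, ← s2, ← s3]
    norm_num
  have h := (Finset.sum_eq_sum_iff_of_le hle).1 heq b hb
  have h1 := odd_HS B hB h3 hint hS hb
  have h2 := hbd b hb
  generalize (HS B S ∩ b).card = i at h h1 h2
  interval_cases i <;> first | omega | (exfalso; revert h; decide) | (exfalso; revert h1; decide)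

include hB h3 hP hint in
/-- The hexad of a triple in a hexad is the same hexad. -/
lemma HS_eq {S T : Finset P} (hS : S.card = 3) (hT : T.card = 3) (hTS : T ⊆ HS B S) :
    HS B T = HS B S := by
  symm
  apply eq_of_subset_of_card_le
  · intro p hp
    unfold HS US
    simp only [mem_sdiff, mem_univ, true_and, mem_biUnion, mem_filter, not_exists, not_and]
    intro b hb hpb hpT
    have h1 := HS_le B hB h3 hP hint hS hb.1
    have h2 : insert p T ⊆ HS B S ∩ b := by
      intro q hq
      rw [mem_insert] at hq
      rcases hq with rfl | hq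
      · exact mem_inter.2 ⟨hp, hpb⟩
      · exact mem_inter.2 ⟨hTS hq, hb.2 hq⟩
    have h4 := card_le_card h2
    rw [card_insert_of_notMem hpT, hT] at h4
    omega
  · rw [card_HS B hB h3 hP hint hS, card_HS B hB h3 hP hint hT]

/-- The hexads. -/
def hexads : Finset (Finset P) := ((univ : Finset P).powersetCard 3).image (HS B)

/-- The blocks of the extension. -/
def ext : Finset (Finset (Option P)) :=
  B.map ⟨fun b => b.map Function.Embedding.some, Finset.map_injective _⟩ ∪
    (hexads B).map (Finset.insertNone (α := P)).toEmbedding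

lemma mem_ext (w : Finset (Option P)) : w ∈ ext B ↔
    (∃ b ∈ B, b.map Function.Embedding.some = w) ∨ ∃ h ∈ hexads B, insertNone h = w := by
  unfold ext
  simp only [mem_union, mem_map, Function.Embedding.coeFn_mk]
  rfl

lemma mem_ext_none (w : Finset (Option P)) (hw : none ∉ w) : w ∈ ext B ↔
    ∃ b ∈ B, b.map Function.Embedding.some = w := by
  rw [mem_ext]
  constructor
  · rintro (h | ⟨h, _, rfl⟩)
    · exact h
    · exact absurd (by simp) hw
  · exact Or.inl

include hB h3 hP hint in
lemma ext_card : ∀ w ∈ ext B, w.card = 7 := by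
  intro w hw
  rw [mem_ext] at hw
  rcases hw with ⟨b, hb, rfl⟩ | ⟨h, hh, rfl⟩
  · rw [card_map, hB b hb]
  · rw [card_insertNone]
    unfold hexads at hh
    rw [mem_image] at hh
    obtain ⟨S, hS, rfl⟩ := hh
    rw [card_HS B hB h3 hP hint (mem_powersetCard.1 hS).2]

include hB h3 hP hint in
lemma ext_deg : ∀ T : Finset (Option P), T.card = 4 →
    ((ext B).filter (fun w => T ⊆ w)).card = 1 := by
  intro T hT
  rw [card_eq_one]
  by_cases hn : none ∈ T
  · -- `T = S ∪ {∞}`
    set S : Finset P := eraseNone T with hSdef
    have hS : S.card = 3 := by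
      rw [hSdef, card_eraseNone_of_mem hn, hT]
    refine ⟨insertNone (HS B S), ?_⟩
    ext w
    simp only [mem_filter, mem_singleton]
    constructor
    · rintro ⟨hw, hTw⟩
      rw [mem_ext] at hw
      rcases hw with ⟨b, hb, rfl⟩ | ⟨h, hh, rfl⟩
      · exfalso
        have := hTw hn
        simp at this
      · unfold hexads at hh
        rw [mem_image] at hh
        obtain ⟨S', hS', rfl⟩ := hh
        have h1 : S ⊆ HS B S' := by
          intro p hp
          rw [hSdef, mem_eraseNone] at hp
          have := hTw hp
          simpa using this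
        rw [HS_eq B hB h3 hP hint (mem_powersetCard.1 hS').2 hS h1]
    · rintro rfl
      constructor
      · rw [mem_ext]
        right
        exact ⟨HS B S, mem_image.2 ⟨S, mem_powersetCard.2 ⟨subset_univ _, hS⟩, rfl⟩, rfl⟩
      · intro o ho
        rcases o with _ | p
        · simp
        · have : p ∈ S := by rw [hSdef, mem_eraseNone]; exact ho
          simpa using sub_HS B S this
  · -- `T` a set of points
    obtain ⟨T', rfl⟩ : ∃ T' : Finset P, T'.map Function.Embedding.some = T := by
      refine ⟨eraseNone T, ?_⟩
      rw [map_some_eraseNone, erase_eq_of_notMem hn]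
    rw [card_map] at hT
    have hsub : ∀ b : Finset P, T'.map Function.Embedding.some ⊆ b.map Function.Embedding.some
        ↔ T' ⊆ b := fun b => map_subset_map
    have hsubN : ∀ b : Finset P, T'.map Function.Embedding.some ⊆ insertNone b ↔ T' ⊆ b := by
      intro b
      constructor
      · intro h p hp
        have := h (mem_map_of_mem _ hp)
        simpa using this
      · intro h o ho
        rw [mem_map] at ho
        obtain ⟨p, hp, rfl⟩ := ho
        simpa using h hp
    by_cases hcov : ∃ b ∈ B, T' ⊆ b
    · obtain ⟨b, hb, hTb⟩ := hcov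
      refine ⟨b.map Function.Embedding.some, ?_⟩
      ext w
      simp only [mem_filter, mem_singleton]
      constructor
      · rintro ⟨hw, hTw⟩
        rw [mem_ext] at hw
        rcases hw with ⟨c, hc, rfl⟩ | ⟨h, hh, rfl⟩
        · rw [hsub] at hTw
          congr 1
          by_contra hne
          have h1 := hint c hc b hb hne
          have h2 := card_le_card (subset_inter hTw hTb)
          omega
        · exfalso
          rw [hsubN] at hTw
          unfold hexads at hh
          rw [mem_image] at hh
          obtain ⟨S', hS', rfl⟩ := hh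
          have h1 := HS_le B hB h3 hP hint (mem_powersetCard.1 hS').2 hb
          have h2 := card_le_card (subset_inter hTw hTb)
          omega
      · rintro rfl
        exact ⟨(mem_ext B _).2 (Or.inl ⟨b, hb, rfl⟩), (hsub b).2 hTb⟩
    · push Not at hcov
      obtain ⟨S, hST, hS⟩ := Finset.exists_subset_card_eq (s := T') (n := 3) (by omega)
      have hTH : T' ⊆ HS B S := by
        intro p hp
        by_cases hpS : p ∈ S
        · exact sub_HS B S hpS
        · unfold HS US
          simp only [mem_sdiff, mem_univ, true_and, mem_biUnion, mem_filter, not_exists, not_and]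
          intro b hb hpb _
          apply hcov b hb.1
          have h1 : insert p S = T' := by
            apply eq_of_subset_of_card_le
            · intro q hq
              rw [mem_insert] at hq
              rcases hq with rfl | hq
              · exact hp
              · exact hST hq
            · rw [card_insert_of_notMem hpS, hS, hT]
          rw [← h1]
          intro q hq
          rw [mem_insert] at hq
          rcases hq with rfl | hq
          · exact hpb
          · exact hb.2 hq
      refine ⟨insertNone (HS B S), ?_⟩
      ext w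
      simp only [mem_filter, mem_singleton]
      constructor
      · rintro ⟨hw, hTw⟩
        rw [mem_ext] at hw
        rcases hw with ⟨c, hc, rfl⟩ | ⟨h, hh, rfl⟩
        · exfalso
          rw [hsub] at hTw
          exact hcov c hc hTw
        · rw [hsubN] at hTw
          unfold hexads at hh
          rw [mem_image] at hh
          obtain ⟨S', hS', rfl⟩ := hh
          rw [HS_eq B hB h3 hP hint (mem_powersetCard.1 hS').2 hS (hST.trans hTw)]
      · rintro rfl
        refine ⟨(mem_ext B _).2 (Or.inr ⟨HS B S, ?_, rfl⟩), (hsubN _).2 hTH⟩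
        exact mem_image.2 ⟨S, mem_powersetCard.2 ⟨subset_univ _, hS⟩, rfl⟩
end

/-- The degenerate case. -/
lemma case5 (B : Finset (Finset P)) (hB : ∀ b ∈ B, b.card = 3)
    (h3 : ∀ T : Finset P, T.card = 3 → deg B T = 1) : B = (univ : Finset P).powersetCard 3 := by
  ext T
  rw [mem_powersetCard]
  constructor
  · intro h
    exact ⟨subset_univ _, hB T h⟩
  · rintro ⟨-, hT⟩
    have := h3 T hT
    unfold deg at this
    rw [card_eq_one] at this
    obtain ⟨b, hb⟩ := this
    have hb' : b ∈ B.filter (fun b => T ⊆ b) := by rw [hb]; exact mem_singleton_self _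
    rw [mem_filter] at hb'
    have : T = b := eq_of_subset_of_card_le hb'.2 (by rw [hB b hb'.1, hT])
    rw [this]
    exact hb'.1

end Pool.Agent.Q108.QS3
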